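import Pool.Agent.TotPar.Guess

/-!
# A regular Lindelöf totally paracompact space which is not Menger (from diamond)

The points of the space are `ω₁` many nondecreasing functions `ℕ → ℕ`; the basic neighbourhoods of
`x` are the sets of the `y ≥ x` (pointwise) which agree with `x` below `n`. The functions are
chosen by recursion; diamond guesses the bases of the space.
-/

set_option autoImplicit false

open Set

namespace Pool.Agent.Results.MP_a4b8ee_gt.ConsistentlyNo

open Pool.Agent.TotPar (Diamond)
open Pool.Agent.TotPar.ForceCH (OmegaOnePreserved DiamondHolds)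

/-- Some forcing notion forces diamond (and preserves `ω₁`), and diamond implies that there is a
regular (`T₃`) Lindelöf totally paracompact space without the Menger property. -/
theorem result :
    (∃ (P : Type) (_ : Preorder P), Nonempty P ∧ ∀ p : P,
      p ∈ OmegaOnePreserved P ∧ p ∈ DiamondHolds P) ∧
    (Diamond → ∃ (X : Type) (_ : TopologicalSpace X), T3Space X ∧ LindelofSpace X ∧
      (∀ B : Set (Set X), TopologicalSpace.IsTopologicalBasis B →
        ∃ C : Set (Set X), C ⊆ B ∧
          LocallyFinite (fun s : C => (s : Set X)) ∧ ⋃₀ C = Set.univ) ∧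
      ¬ (∀ U : ℕ → Set (Set X), (∀ n, ∀ s ∈ U n, IsOpen s) → (∀ n, ⋃₀ U n = Set.univ) →
        ∃ A : ℕ → Set (Set X), (∀ n, A n ⊆ U n ∧ (A n).Finite) ∧
          (⋃ n, ⋃₀ A n) = Set.univ)) := by
  constructor
  · obtain ⟨P, hP, hne, h⟩ := Pool.Agent.TotPar.ForceCH.exists_forcing
    exact ⟨P, hP, hne, fun p => ⟨(h p).1, (h p).2.1⟩⟩
  · intro h
    obtain ⟨g⟩ := Pool.Agent.TotPar.exists_guess h
    obtain ⟨X, _, h1, h2, h3, U, hU1, hU2, hU3⟩ := Pool.Agent.TotPar.space g
    refine ⟨X, _, h1, h2, h3, fun hM => ?_⟩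
    obtain ⟨A, hA, hcov⟩ := hM U hU1 hU2
    exact hU3 A hA hcov

end Pool.Agent.Results.MP_a4b8ee_gt.ConsistentlyNo
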