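import Mathlib

set_option autoImplicit false

open Set Filter Topology TopologicalSpace

namespace Pool.Agent.Results.MP_a4b8ee_gt.SmallUnion

universe u v w z

/-- Core lemma: in a totally paracompact space the closure of a countable union of compact sets is
covered by one member from each of countably many increasing open covers. -/
theorem core {X : Type u} [TopologicalSpace X]
    (hTP : ∀ B : Set (Set X), IsTopologicalBasis B →
        ∃ C : Set (Set X), C ⊆ B ∧ LocallyFinite (fun s : C => (s : Set X)) ∧ ⋃₀ C = Set.univ)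
    (K : ℕ → Set X) (hK : ∀ n, IsCompact (K n))
    (V : ℕ → ℕ → Set X) (hVo : ∀ m k, IsOpen (V m k)) (hVm : ∀ m, Monotone (V m))
    (hVc : ∀ m, closure (⋃ n, K n) ⊆ ⋃ k, V m k) :
    ∃ g : ℕ → ℕ, closure (⋃ n, K n) ⊆ ⋃ m, V m (g m) := by
  classical
  set Y : Set X := closure (⋃ n, K n) with hY
  let B : Set (Set X) := {b | IsOpen b ∧ (b ∩ Y = ∅ ∨ ∃ m k, (b ∩ K m).Nonempty ∧ b ⊆ V m k)}
  have hB : IsTopologicalBasis B := by
    refine isTopologicalBasis_of_isOpen_of_nhds (fun b hb => hb.1) ?_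
    intro x W hxW hW
    by_cases hx : x ∈ Y
    · obtain ⟨z, hzW, hzK⟩ := mem_closure_iff.1 hx W hW hxW
      obtain ⟨m, hzm⟩ := mem_iUnion.1 hzK
      obtain ⟨k₁, hk₁⟩ := mem_iUnion.1 (hVc m hx)
      obtain ⟨k₂, hk₂⟩ := mem_iUnion.1 (hVc m (subset_closure hzK))
      refine ⟨W ∩ V m (max k₁ k₂), ⟨hW.inter (hVo _ _), Or.inr ⟨m, max k₁ k₂, ⟨z, ⟨hzW, ?_⟩, hzm⟩, ?_⟩⟩,
        ⟨hxW, ?_⟩, inter_subset_left⟩
      · exact hVm m (le_max_right _ _) hk₂
      · exact inter_subset_right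
      · exact hVm m (le_max_left _ _) hk₁
    · refine ⟨W ∩ Yᶜ, ⟨hW.inter isClosed_closure.isOpen_compl, Or.inl ?_⟩, ⟨hxW, hx⟩,
        inter_subset_left⟩
      ext y; simp
  obtain ⟨C, hCB, hCf, hCu⟩ := hTP B hB
  -- finitely many members of C meet K m
  have hfin : ∀ m, {s : C | ((s : Set X) ∩ K m).Nonempty}.Finite := fun m =>
    hCf.finite_nonempty_inter_compact (hK m)
  have hg : ∀ m, ∃ g : ℕ, ∀ s : C, ((s : Set X) ∩ K m).Nonempty →
      (∃ k, (s : Set X) ⊆ V m k) → (s : Set X) ⊆ V m g := by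
    intro m
    have : ∀ s : C, ∃ k₀ : ℕ, (∃ k, (s : Set X) ⊆ V m k) → (s : Set X) ⊆ V m k₀ := by
      intro s
      by_cases h : ∃ k, (s : Set X) ⊆ V m k
      · obtain ⟨k, hk⟩ := h
        exact ⟨k, fun _ => hk⟩
      · exact ⟨0, fun h' => absurd h' h⟩
    choose κ hκ using this
    obtain ⟨N, hN⟩ := ((hfin m).image κ).bddAbove
    refine ⟨N, fun s hs hk => (hκ s hk).trans (hVm m (hN ⟨s, hs, rfl⟩))⟩
  choose g hg using hg
  refine ⟨g, fun x hx => ?_⟩
  have hxu : x ∈ ⋃₀ C := by rw [hCu]; exact mem_univ x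
  obtain ⟨s, hsC, hxs⟩ := hxu
  rcases (hCB hsC).2 with h | ⟨m, k, h1, h2⟩
  · exact absurd (show x ∈ s ∩ Y from ⟨hxs, hx⟩) (by rw [h]; exact notMem_empty x)
  · exact mem_iUnion.2 ⟨m, hg m ⟨s, hsC⟩ h1 ⟨k, h2⟩ hxs⟩


/-- In a Lindelof regular space an increasing open cover is dominated by a continuous function. -/
theorem dominate {X : Type u} [TopologicalSpace X] [RegularSpace X] [LindelofSpace X]
    (V : ℕ → Set X) (hVo : ∀ k, IsOpen (V k)) (hVm : Monotone V) (hVc : ⋃ k, V k = univ) :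
    ∃ h : X → ℝ, Continuous h ∧ ∀ R : ℕ, ∃ K : ℕ, ∀ x, h x < R → x ∈ V K := by
  classical
  rcases isEmpty_or_nonempty X with hX | hX
  · exact ⟨fun x => 0, continuous_const, fun R => ⟨0, fun x => (hX.false x).elim⟩⟩
  -- pointwise Urysohn functions
  have h1 : ∀ x : X, ∃ (k : ℕ) (φ : C(X, ℝ)), φ x = 1 ∧ (∀ y, 0 ≤ φ y ∧ φ y ≤ 1) ∧
      ∀ y, y ∉ V k → φ y = 0 := by
    intro x
    obtain ⟨k, hk⟩ := mem_iUnion.1 (show x ∈ ⋃ k, V k by rw [hVc]; trivial)
    have hnb : V k ∈ 𝓝 x := (hVo k).mem_nhds hk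
    obtain ⟨t, ht, htc, htV⟩ := exists_mem_nhds_isClosed_subset hnb
    have hcl : IsClosed (closure {x}) := isClosed_closure
    have hclV : closure {x} ⊆ V k := by
      refine (closure_minimal ?_ htc).trans htV
      exact singleton_subset_iff.2 (mem_of_mem_nhds ht)
    obtain ⟨φ, hφ0, hφ1, hφ⟩ := exists_continuous_zero_one_of_isClosed (hVo k).isClosed_compl hcl
      (disjoint_left.2 fun y hy hy' => hy (hclV hy'))
    refine ⟨k, φ, hφ1 (subset_closure rfl), fun y => ⟨(hφ y).1, (hφ y).2⟩, fun y hy => hφ0 hy⟩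
  choose κ φ hφ1 hφb hφ0 using h1
  -- countable subfamily
  obtain ⟨s, hs, hsc⟩ := LindelofSpace.elim_nhds_subcover (fun x => {y | φ x y > 1/2})
    (fun x => ((isOpen_lt continuous_const (φ x).continuous).mem_nhds (by simp [hφ1 x]; norm_num)))
  have hne : s.Nonempty := by
    by_contra h
    rw [not_nonempty_iff_eq_empty] at h
    subst h
    obtain ⟨x⟩ := hX
    have : x ∈ (univ : Set X) := trivial
    rw [← hsc] at this
    simp at this
  obtain ⟨a, ha⟩ := hs.exists_eq_range hne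
  -- the sum
  let S : X → ℝ := fun y => ∑' i : ℕ, (1/2)^i * φ (a i) y
  have hbd : ∀ i y, ‖(1/2 : ℝ)^i * φ (a i) y‖ ≤ (1/2)^i := by
    intro i y
    rw [norm_mul, norm_pow]
    have h2 : ‖φ (a i) y‖ ≤ 1 := by
      rw [Real.norm_eq_abs, abs_of_nonneg (hφb (a i) y).1]; exact (hφb (a i) y).2
    have h3 : ‖(1/2 : ℝ)‖ = 1/2 := by norm_num
    rw [h3]
    calc (1/2 : ℝ)^i * ‖φ (a i) y‖ ≤ (1/2)^i * 1 := by gcongr
      _ = _ := mul_one _
  have hsum : Summable (fun i : ℕ => (1/2 : ℝ)^i) := summable_geometric_two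
  have hSc : Continuous S := by
    refine continuous_tsum (fun i => continuous_const.mul (φ (a i)).continuous) hsum hbd
  have hSs : ∀ y, Summable (fun i : ℕ => (1/2 : ℝ)^i * φ (a i) y) := fun y =>
    Summable.of_norm_bounded hsum (fun i => hbd i y)
  have hSpos : ∀ y, 0 < S y := by
    intro y
    have : y ∈ (univ : Set X) := trivial
    rw [← hsc] at this
    simp only [mem_iUnion] at this
    obtain ⟨x, hx, hy⟩ := this
    rw [ha] at hx
    obtain ⟨i, rfl⟩ := hx
    refine (hSs y).tsum_pos (fun j => ?_) i ?_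
    · exact mul_nonneg (by positivity) (hφb _ _).1
    · have : (1/2 : ℝ) < φ (a i) y := hy
      positivity
  -- tails
  have htail : ∀ n : ℕ, ∃ K : ℕ, ∀ y, y ∉ V K → S y ≤ 2 * (1/2)^n := by
    intro n
    obtain ⟨K, hK⟩ := ((Finset.range n).image (fun i => κ (a i))).bddAbove
    refine ⟨K, fun y hy => ?_⟩
    have hz : ∀ i < n, φ (a i) y = 0 := by
      intro i hi
      refine hφ0 (a i) y (fun h => hy (hVm (hK ?_) h))
      simp only [Finset.coe_image, Finset.coe_range, mem_image, mem_Iio]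
      exact ⟨i, hi, rfl⟩
    have hle : S y ≤ ∑' i : ℕ, (if i < n then 0 else (1/2 : ℝ)^i) := by
      refine (hSs y).tsum_le_tsum (fun i => ?_) ?_
      · by_cases hi : i < n
        · simp [hi, hz i hi]
        · simp only [hi, if_false]
          exact (le_abs_self _).trans (hbd i y)
      · refine Summable.of_nonneg_of_le (fun i => ?_) (fun i => ?_) hsum
        · split_ifs <;> positivity
        · split_ifs
          · positivity
          · exact le_rfl
    have heq : ∑' i : ℕ, (if i < n then 0 else (1/2 : ℝ)^i) = 2 * (1/2)^n := by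
      have hs' : Summable (fun i : ℕ => if i < n then (0:ℝ) else (1/2 : ℝ)^i) := by
        refine Summable.of_nonneg_of_le (fun i => ?_) (fun i => ?_) hsum
        · split_ifs <;> positivity
        · split_ifs
          · positivity
          · exact le_rfl
      rw [← hs'.sum_add_tsum_nat_add n]
      have h0 : ∑ i ∈ Finset.range n, (if i < n then (0:ℝ) else (1/2 : ℝ)^i) = 0 := by
        refine Finset.sum_eq_zero (fun i hi => ?_)
        simp [Finset.mem_range.1 hi]
      rw [h0, zero_add]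
      have : ∀ i : ℕ, (if i + n < n then (0:ℝ) else (1/2 : ℝ)^(i+n)) = (1/2)^n * (1/2)^i := by
        intro i
        rw [if_neg (by omega), pow_add, mul_comm]
      simp_rw [this]
      rw [tsum_mul_left, tsum_geometric_two, mul_comm]
    linarith
  refine ⟨fun y => 1 / S y, continuous_const.div hSc (fun y => (hSpos y).ne'), fun R => ?_⟩
  obtain ⟨n, hn⟩ := exists_nat_gt (2 * (R : ℝ))
  obtain ⟨K, hK⟩ := htail n
  refine ⟨K, fun x hx => ?_⟩
  by_contra hxV
  have h1 := hK x hxV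
  have h2 : (R : ℝ) * (2 * (1/2)^n) ≤ 1 := by
    have h3 : (n : ℝ) < 2 ^ n := by exact_mod_cast Nat.lt_two_pow_self
    have h4 : (1/2 : ℝ)^n = 1 / 2^n := by rw [div_pow, one_pow]
    rw [h4]
    rw [show (R : ℝ) * (2 * (1 / 2^n)) = (2 * R) / 2^n by ring, div_le_one (by positivity)]
    linarith
  have h5 : 1 / S x < R := hx
  rw [div_lt_iff₀ (hSpos x)] at h5
  have : (R : ℝ) * S x ≤ R * (2 * (1/2)^n) := by
    have : (0:ℝ) ≤ R := Nat.cast_nonneg R
    gcongr
  linarith


/-- The core lemma for the closure of a countable set. -/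
theorem core_countable {X : Type u} [TopologicalSpace X]
    (hTP : ∀ B : Set (Set X), IsTopologicalBasis B →
        ∃ C : Set (Set X), C ⊆ B ∧ LocallyFinite (fun s : C => (s : Set X)) ∧ ⋃₀ C = Set.univ)
    (D : Set X) (hD : D.Countable)
    (V : ℕ → ℕ → Set X) (hVo : ∀ m k, IsOpen (V m k)) (hVm : ∀ m, Monotone (V m))
    (hVc : ∀ m, closure D ⊆ ⋃ k, V m k) :
    ∃ g : ℕ → ℕ, closure D ⊆ ⋃ m, V m (g m) := by
  rcases D.eq_empty_or_nonempty with h | h
  · subst h; exact ⟨fun _ => 0, by simp⟩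
  · obtain ⟨a, ha⟩ := hD.exists_eq_range h
    have hu : (⋃ n, ({a n} : Set X)) = D := by rw [ha]; ext; simp [eq_comm]
    have := core hTP (fun n => {a n}) (fun n => isCompact_singleton) V hVo hVm (by rw [hu]; exact hVc)
    rw [hu] at this
    exact this

/-- The projection along a second countable factor onto a P-space is a closed map. -/
theorem proj_closed {M : Type v} [TopologicalSpace M] [SecondCountableTopology M]
    {P : Type w} [TopologicalSpace P]
    (hP : ∀ O : ℕ → Set P, (∀ n, IsOpen (O n)) → IsOpen (⋂ n, O n))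
    (F : Set (M × P)) (hF : IsClosed F) : IsOpen {t : P | ∀ m : M, (m, t) ∉ F} := by
  classical
  rw [isOpen_iff_mem_nhds]
  intro t ht
  obtain ⟨b, hbc, -, hb⟩ := exists_countable_basis M
  -- for a basic set choose an open neighbourhood of t if possible
  have key : ∀ B : Set M, ∃ N : Set P, IsOpen N ∧ t ∈ N ∧
      ((∃ N' : Set P, IsOpen N' ∧ t ∈ N' ∧ (B ×ˢ N') ∩ F = ∅) → (B ×ˢ N) ∩ F = ∅) := by
    intro B
    by_cases h : ∃ N' : Set P, IsOpen N' ∧ t ∈ N' ∧ (B ×ˢ N') ∩ F = ∅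
    · obtain ⟨N', h1, h2, h3⟩ := h
      exact ⟨N', h1, h2, fun _ => h3⟩
    · exact ⟨univ, isOpen_univ, mem_univ _, fun h' => absurd h' h⟩
  choose N hNo hNt hN using key
  rcases b.eq_empty_or_nonempty with hbe | hbn
  · have : IsEmpty M := by
      refine ⟨fun m => ?_⟩
      obtain ⟨B, hB, -⟩ := hb.exists_subset_of_mem_open (mem_univ m) isOpen_univ
      rw [hbe] at hB; exact hB
    exact univ_mem' (fun t m => (this.false m).elim)
  · obtain ⟨a, ha⟩ := hbc.exists_eq_range hbn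
    have hO : IsOpen (⋂ n, N (a n)) := hP _ (fun n => hNo _)
    refine mem_nhds_iff.2 ⟨⋂ n, N (a n), ?_, hO, mem_iInter.2 fun n => hNt _⟩
    intro t' ht' m hm
    have hmt : (m, t) ∈ Fᶜ := ht m
    obtain ⟨u, u', hu, hu', hmu, htu', huu'⟩ := isOpen_prod_iff.1 hF.isOpen_compl m t hmt
    obtain ⟨B, hBb, hmB, hBu⟩ := hb.exists_subset_of_mem_open hmu hu
    have h1 : (B ×ˢ N B) ∩ F = ∅ := by
      refine hN B ⟨u', hu', htu', ?_⟩
      rw [eq_empty_iff_forall_notMem]
      rintro ⟨x, y⟩ ⟨⟨hx, hy⟩, hxy⟩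
      exact huu' ⟨hBu hx, hy⟩ hxy
    rw [ha] at hBb
    obtain ⟨n, rfl⟩ := hBb
    have h2 : (m, t') ∈ (a n ×ˢ N (a n)) ∩ F := ⟨⟨hmB, mem_iInter.1 ht' n⟩, hm⟩
    rw [h1] at h2
    exact h2

/-- Reduction of arbitrary open covers of a Lindelof space to increasing countable ones. -/
theorem reduce {X : Type u} [TopologicalSpace X] [LindelofSpace X]
    (H : ∀ V : ℕ → ℕ → Set X, (∀ m k, IsOpen (V m k)) → (∀ m, Monotone (V m)) →
      (∀ m, ⋃ k, V m k = univ) → ∃ g : ℕ → ℕ, ⋃ m, V m (g m) = univ) :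
    ∀ U : ℕ → Set (Set X), (∀ n, ∀ s ∈ U n, IsOpen s) → (∀ n, ⋃₀ U n = Set.univ) →
        ∃ A : ℕ → Set (Set X), (∀ n, A n ⊆ U n ∧ (A n).Finite) ∧
          (⋃ n, ⋃₀ A n) = Set.univ := by
  classical
  intro U hUo hUc
  rcases isEmpty_or_nonempty X with hX | hX
  · refine ⟨fun _ => ∅, fun n => ⟨empty_subset _, finite_empty⟩, ?_⟩
    ext x; exact (hX.false x).elim
  have h1 : ∀ n, ∃ s : ℕ → Set X, (∀ i, s i ∈ U n) ∧ ⋃ i, s i = univ := by
    intro n
    have h2 : ∀ x : X, ∃ s ∈ U n, x ∈ s := fun x => by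
      have : x ∈ ⋃₀ U n := by rw [hUc n]; trivial
      exact this
    choose s hs hxs using h2
    obtain ⟨t, htc, ht⟩ := LindelofSpace.elim_nhds_subcover s
      (fun x => (hUo n _ (hs x)).mem_nhds (hxs x))
    have hne : t.Nonempty := by
      by_contra h
      rw [not_nonempty_iff_eq_empty] at h
      subst h
      obtain ⟨x⟩ := hX
      have : x ∈ (univ : Set X) := trivial
      rw [← ht] at this
      simp at this
    obtain ⟨a, ha⟩ := htc.exists_eq_range hne
    refine ⟨fun i => s (a i), fun i => hs _, ?_⟩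
    rw [← ht, ha]
    ext y; simp
  choose s hsU hsc using h1
  obtain ⟨g, hg⟩ := H (fun m k => ⋃ i ≤ k, s m i)
    (fun m k => isOpen_biUnion fun i _ => hUo m _ (hsU m i))
    (fun m k l hkl => biUnion_subset_biUnion_left fun i hi => le_trans hi hkl)
    (fun m => by
      rw [eq_univ_iff_forall]
      intro x
      have : x ∈ ⋃ i, s m i := by rw [hsc m]; trivial
      obtain ⟨i, hi⟩ := mem_iUnion.1 this
      exact mem_iUnion.2 ⟨i, mem_iUnion₂.2 ⟨i, le_rfl, hi⟩⟩)
  refine ⟨fun n => (fun i => s n i) '' {i | i ≤ g n}, fun n => ⟨?_, (finite_le_nat _).image _⟩, ?_⟩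
  · rintro _ ⟨i, -, rfl⟩; exact hsU n i
  · rw [← hg]
    ext x; simp

theorem main {X : Type u} [TopologicalSpace X] [RegularSpace X] [LindelofSpace X]
    (hTP : ∀ B : Set (Set X), IsTopologicalBasis B →
        ∃ C : Set (Set X), C ⊆ B ∧ LocallyFinite (fun s : C => (s : Set X)) ∧ ⋃₀ C = Set.univ)
    {M : Type v} [TopologicalSpace M] [T2Space M] [SecondCountableTopology M]
    {P : Type w} [TopologicalSpace P] [T2Space P] [LindelofSpace P]
    (hP : ∀ O : ℕ → Set P, (∀ n, IsOpen (O n)) → IsOpen (⋂ n, O n))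
    {Z : Type z} [TopologicalSpace Z] (ρ : Z → M × P) (hρ : IsProperMap ρ)
    (π : Z → X) (hπ : Continuous π)
    (V : ℕ → ℕ → Set X) (hVo : ∀ m k, IsOpen (V m k)) (hVm : ∀ m, Monotone (V m))
    (hVc : ∀ m, ⋃ k, V m k = univ) : ∃ g : ℕ → ℕ, range π ⊆ ⋃ m, V m (g m) := by
  classical
  rcases isEmpty_or_nonempty Z with hZ | hZ
  · exact ⟨fun _ => 0, by rintro _ ⟨z, -⟩; exact (hZ.false z).elim⟩
  -- dominating continuous functions
  have h1 := fun m => dominate (V m) (hVo m) (hVm m) (hVc m)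
  choose h hc hK using h1
  choose K hK using hK
  let H : X → ℕ → ℝ := fun x m => h m x
  have hHc : Continuous H := continuous_pi fun m => hc m
  let q : Z → (M × P) × (ℕ → ℝ) := fun z => (ρ z, H (π z))
  have hqc : Continuous q := hρ.continuous.prodMk (hHc.comp hπ)
  have hq : IsProperMap q := isProperMap_of_comp_of_t2 hqc continuous_fst hρ
  let q' : Z → M × (ℕ → ℝ) := fun z => ((ρ z).1, H (π z))
  -- fibres over points of P
  have h2 : ∀ t : P, ∃ D : Set Z, D.Countable ∧ ∀ z, (ρ z).2 = t →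
      ∃ z' ∈ closure D, H (π z') = H (π z) := by
    intro t
    obtain ⟨b, hbc, -, hb⟩ := exists_countable_basis (M × (ℕ → ℝ))
    have h3 : ∀ B : Set (M × (ℕ → ℝ)), ∃ D : Set Z, D.Countable ∧ (∀ z ∈ D, (ρ z).2 = t) ∧
        ((∃ z, (ρ z).2 = t ∧ q' z ∈ B) → ∃ z ∈ D, q' z ∈ B) := by
      intro B
      by_cases hB : ∃ z, (ρ z).2 = t ∧ q' z ∈ B
      · obtain ⟨z, hz, hz'⟩ := hB
        refine ⟨{z}, countable_singleton z, ?_, fun _ => ⟨z, rfl, hz'⟩⟩
        rintro _ rfl; exact hz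
      · exact ⟨∅, countable_empty, fun z hz => hz.elim, fun h' => absurd h' hB⟩
    choose D hDc hDt hD using h3
    refine ⟨⋃ B ∈ b, D B, hbc.biUnion fun B _ => hDc B, fun z hz => ?_⟩
    have hcl : IsClosed (q '' closure (⋃ B ∈ b, D B)) := hq.isClosedMap _ isClosed_closure
    have hmem : q z ∈ q '' closure (⋃ B ∈ b, D B) := by
      by_contra hn
      have ho : IsOpen (q '' closure (⋃ B ∈ b, D B))ᶜ := hcl.isOpen_compl
      let e : M × (ℕ → ℝ) → (M × P) × (ℕ → ℝ) := fun y => ((y.1, t), y.2)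
      have hec : Continuous e := (continuous_fst.prodMk continuous_const).prodMk continuous_snd
      have heq : ∀ z', (ρ z').2 = t → e (q' z') = q z' := by
        intro z' hz'
        simp only [e, q', q]
        rw [← hz']
      have ho' : IsOpen (e ⁻¹' (q '' closure (⋃ B ∈ b, D B))ᶜ) := ho.preimage hec
      obtain ⟨B, hBb, hzB, hBs⟩ := hb.exists_subset_of_mem_open
        (show q' z ∈ e ⁻¹' (q '' closure (⋃ B ∈ b, D B))ᶜ by
          show e (q' z) ∈ (q '' closure (⋃ B ∈ b, D B))ᶜ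
          rw [heq z hz]; exact hn) ho'
      obtain ⟨d, hd, hdB⟩ := hD B ⟨z, hz, hzB⟩
      have h4 : e (q' d) ∈ (q '' closure (⋃ B ∈ b, D B))ᶜ := hBs hdB
      rw [heq d (hDt B d hd)] at h4
      exact h4 ⟨d, subset_closure (mem_biUnion hBb hd), rfl⟩
    obtain ⟨z', hz', he⟩ := hmem
    exact ⟨z', hz', congrArg Prod.snd he⟩
  -- domination over a fibre
  have h3 : ∀ (t : P) (i : ℕ), ∃ g : ℕ → ℕ, ∀ z, (ρ z).2 = t →
      ∃ j, h (Nat.pair i j) (π z) < g j := by
    intro t i
    obtain ⟨D, hDc, hD⟩ := h2 t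
    obtain ⟨g, hg⟩ := core_countable hTP (π '' D) (hDc.image _)
      (fun j R => {x | h (Nat.pair i j) x < (R : ℕ)})
      (fun j R => isOpen_lt (hc _) continuous_const)
      (fun j R S hRS x hx => lt_of_lt_of_le (show h (Nat.pair i j) x < (R : ℝ) from hx)
        (by exact_mod_cast hRS))
      (fun j x _ => by
        obtain ⟨R, hR⟩ := exists_nat_gt (h (Nat.pair i j) x)
        exact mem_iUnion.2 ⟨R, hR⟩)
    refine ⟨g, fun z hz => ?_⟩
    obtain ⟨z', hz', he⟩ := hD z hz
    have h4 : π z' ∈ closure (π '' D) :=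
      image_closure_subset_closure_image hπ ⟨z', hz', rfl⟩
    obtain ⟨j, hj⟩ := mem_iUnion.1 (hg h4)
    refine ⟨j, ?_⟩
    have h5 : h (Nat.pair i j) (π z') = h (Nat.pair i j) (π z) := congrFun he _
    rw [← h5]; exact hj
  choose g hg using h3
  -- open neighbourhoods in P
  let E : P → ℕ → Set Z := fun t i => {z | ∀ j, (g t i j : ℝ) ≤ h (Nat.pair i j) (π z)}
  have hE : ∀ t i, IsClosed (E t i) := fun t i => by
    have : E t i = ⋂ j, {z | (g t i j : ℝ) ≤ h (Nat.pair i j) (π z)} := by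
      ext z; simp [E]
    rw [this]
    exact isClosed_iInter fun j => isClosed_le continuous_const ((hc _).comp hπ)
  let N : P → Set P := fun t => ⋂ i, {t' | ∀ m : M, (m, t') ∉ ρ '' E t i}
  have hNo : ∀ t, IsOpen (N t) := fun t =>
    hP _ fun i => proj_closed hP _ (hρ.isClosedMap _ (hE t i))
  have hNt : ∀ t, t ∈ N t := by
    intro t
    refine mem_iInter.2 fun i m hm => ?_
    obtain ⟨z, hz, hz'⟩ := hm
    obtain ⟨j, hj⟩ := hg t i z (by rw [hz'])
    exact absurd (hz j) (not_le.2 hj)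
  obtain ⟨s, hsc, hsu⟩ := LindelofSpace.elim_nhds_subcover N (fun t => (hNo t).mem_nhds (hNt t))
  have hne : s.Nonempty := by
    obtain ⟨z⟩ := hZ
    have : (ρ z).2 ∈ (univ : Set P) := trivial
    rw [← hsu] at this
    obtain ⟨t, ht, -⟩ := mem_iUnion₂.1 this
    exact ⟨t, ht⟩
  obtain ⟨τ, hτ⟩ := hsc.exists_eq_range hne
  refine ⟨fun m => K m (g (τ (Nat.unpair m).1) (Nat.unpair m).1 (Nat.unpair m).2), ?_⟩
  rintro _ ⟨z, rfl⟩
  have h6 : (ρ z).2 ∈ (univ : Set P) := trivial
  rw [← hsu] at h6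
  obtain ⟨t, ht, h7⟩ := mem_iUnion₂.1 h6
  rw [hτ] at ht
  obtain ⟨i, rfl⟩ := ht
  have h8 := mem_iInter.1 h7 i (ρ z).1
  have h9 : z ∉ E (τ i) i := fun hz => h8 ⟨z, hz, rfl⟩
  simp only [E, Set.mem_ofPred_eq, not_forall, not_le] at h9
  obtain ⟨j, hj⟩ := h9
  refine mem_iUnion.2 ⟨Nat.pair i j, ?_⟩
  simp only [Nat.unpair_pair]
  exact hK _ _ _ hj

/-- A subset `A` of `X` is tame if it is contained in the closure of a countable union of compact
subsets of `X`, or in a continuous image of a space `Z` that has a perfect (proper) map into a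
product `M × P` of a second countable Hausdorff space `M` and a Lindelof Hausdorff space `P` in
which countable intersections of open sets are open. -/
def Tame {X : Type u} [TopologicalSpace X] (A : Set X) : Prop :=
  (∃ K : ℕ → Set X, (∀ n, IsCompact (K n)) ∧ A ⊆ closure (⋃ n, K n)) ∨
  (∃ (M P Z : Type u) (_ : TopologicalSpace M) (_ : TopologicalSpace P) (_ : TopologicalSpace Z)
    (ρ : Z → M × P) (π : Z → X),
      T2Space M ∧ SecondCountableTopology M ∧ T2Space P ∧ LindelofSpace P ∧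
      (∀ O : ℕ → Set P, (∀ n, IsOpen (O n)) → IsOpen (⋂ n, O n)) ∧
      IsProperMap ρ ∧ Continuous π ∧ A ⊆ range π)

/-- Tame subsets of a regular Lindelof totally paracompact space are relatively Menger. -/
theorem tame_cover {X : Type u} [TopologicalSpace X] [RegularSpace X] [LindelofSpace X]
    (hTP : ∀ B : Set (Set X), IsTopologicalBasis B →
        ∃ C : Set (Set X), C ⊆ B ∧ LocallyFinite (fun s : C => (s : Set X)) ∧ ⋃₀ C = Set.univ)
    {A : Set X} (hA : Tame A)
    (V : ℕ → ℕ → Set X) (hVo : ∀ m k, IsOpen (V m k)) (hVm : ∀ m, Monotone (V m))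
    (hVc : ∀ m, ⋃ k, V m k = univ) : ∃ g : ℕ → ℕ, A ⊆ ⋃ m, V m (g m) := by
  rcases hA with ⟨K, hK, hAK⟩ | ⟨M, P, Z, _, _, _, ρ, π, h1, h2, h3, h4, hP, hρ, hπ, hAπ⟩
  · obtain ⟨g, hg⟩ := core hTP K hK V hVo hVm (fun m => by rw [hVc m]; exact subset_univ _)
    exact ⟨g, hAK.trans hg⟩
  · obtain ⟨g, hg⟩ := main hTP hP ρ hρ π hπ V hVo hVm hVc
    exact ⟨g, hAπ.trans hg⟩

/-- Let `X` be a regular Lindelof totally paracompact space that is the union of fewer than
`𝔟` tame subsets (the index type `ι` is such that every `ι`-indexed family of functions `ℕ → ℕ`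
is bounded modulo finite; every countable type qualifies). Then `X` has the Menger property. -/
theorem result
    (X : Type u) [TopologicalSpace X] (hreg : RegularSpace X) (hLin : LindelofSpace X)
    (hTP : ∀ B : Set (Set X), IsTopologicalBasis B →
        ∃ C : Set (Set X), C ⊆ B ∧ LocallyFinite (fun s : C => (s : Set X)) ∧ ⋃₀ C = Set.univ)
    (ι : Type v) (hι : ∀ f : ι → ℕ → ℕ, ∃ g : ℕ → ℕ, ∀ i, ∀ᶠ n in atTop, f i n ≤ g n)
    (A : ι → Set X) (hA : ∀ i, Tame (A i)) (hAc : ⋃ i, A i = univ) :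
    ∀ U : ℕ → Set (Set X), (∀ n, ∀ s ∈ U n, IsOpen s) → (∀ n, ⋃₀ U n = Set.univ) →
        ∃ A : ℕ → Set (Set X), (∀ n, A n ⊆ U n ∧ (A n).Finite) ∧
          (⋃ n, ⋃₀ A n) = Set.univ := by
  refine reduce fun V hVo hVm hVc => ?_
  have h1 : ∀ i n, ∃ g : ℕ → ℕ, A i ⊆ ⋃ m, V (n + m) (g m) := fun i n =>
    tame_cover hTP (hA i) (fun m k => V (n + m) k) (fun m k => hVo _ _) (fun m => hVm _)
      (fun m => hVc _)
  choose g hg using h1
  obtain ⟨G, hG⟩ := hι (fun i m => (Finset.range (m + 1)).sup fun n => g i n (m - n))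
  refine ⟨G, ?_⟩
  rw [eq_univ_iff_forall]
  intro x
  obtain ⟨i, hi⟩ := mem_iUnion.1 (show x ∈ ⋃ i, A i by rw [hAc]; trivial)
  obtain ⟨n, hn⟩ := eventually_atTop.1 (hG i)
  obtain ⟨m, hm⟩ := mem_iUnion.1 (hg i n hi)
  refine mem_iUnion.2 ⟨n + m, hVm _ ?_ hm⟩
  refine le_trans ?_ (hn (n + m) (Nat.le_add_right _ _))
  have h2 := Finset.le_sup (f := fun k => g i k (n + m - k))
    (Finset.mem_range.2 (show n < n + m + 1 by omega))
  simpa using h2

/-- Sanity check: every countable index type satisfies the hypothesis on `ι`. -/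
theorem countable_index (ι : Type v) [Countable ι] (f : ι → ℕ → ℕ) :
    ∃ g : ℕ → ℕ, ∀ i, ∀ᶠ n in atTop, f i n ≤ g n := by
  classical
  obtain ⟨e, he⟩ := exists_injective_nat ι
  refine ⟨fun n => sSup {k | ∃ i, e i ≤ n ∧ f i n = k}, fun i => ?_⟩
  refine eventually_atTop.2 ⟨e i, fun n hn => ?_⟩
  refine le_csSup ?_ ⟨i, hn, rfl⟩
  have hfin : {i | e i ≤ n}.Finite := (finite_le_nat n).preimage he.injOn
  have : {k | ∃ i, e i ≤ n ∧ f i n = k} = (fun i => f i n) '' {i | e i ≤ n} := by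
    ext k; simp
  rw [this]
  exact (hfin.image _).bddAbove

/-- Sanity check: every separable space is tame as a subset of itself. -/
theorem tame_of_separable {X : Type u} [TopologicalSpace X] [SeparableSpace X] [Nonempty X] :
    Tame (univ : Set X) := by
  obtain ⟨a, ha⟩ := exists_dense_seq X
  refine Or.inl ⟨fun n => {a n}, fun n => isCompact_singleton, ?_⟩
  have : (⋃ n, ({a n} : Set X)) = range a := by ext; simp [eq_comm]
  rw [this, ha.closure_range]

/-- Sanity check: every continuous image of a perfect preimage of a second countable Hausdorff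
space (that is, every Lindelof Sigma-space) is tame. -/
theorem tame_of_sigma {X M Z : Type u} [TopologicalSpace X] [TopologicalSpace M] [T2Space M]
    [SecondCountableTopology M] [TopologicalSpace Z] (p : Z → M) (hp : IsProperMap p)
    (π : Z → X) (hπ : Continuous π) : Tame (range π) := by
  refine Or.inr ⟨M, PUnit, Z, inferInstance, inferInstance, inferInstance,
    fun z => (p z, PUnit.unit), π, inferInstance, inferInstance, inferInstance, inferInstance,
    fun O hO => isOpen_discrete _, ?_, hπ, Subset.rfl⟩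
  exact (Homeomorph.prodPUnit M).symm.isProperMap.comp hp

/-- Sanity check: every Lindelof Hausdorff P-space is tame as a subset of itself. -/
theorem tame_of_pSpace {X : Type u} [TopologicalSpace X] [T2Space X] [LindelofSpace X]
    (hP : ∀ O : ℕ → Set X, (∀ n, IsOpen (O n)) → IsOpen (⋂ n, O n)) :
    Tame (univ : Set X) := by
  refine Or.inr ⟨PUnit, X, X, inferInstance, inferInstance, inferInstance,
    fun x => (PUnit.unit, x), id, inferInstance, inferInstance, inferInstance, inferInstance,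
    hP, ?_, continuous_id, by simp⟩
  exact (Homeomorph.punitProd X).symm.isProperMap

end Pool.Agent.Results.MP_a4b8ee_gt.SmallUnion
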